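import Pool.Agent.Q283.XF.Hom

/-!
# The densities
-/

set_option autoImplicit false
set_option linter.style.haveILetI false
set_option linter.unusedSectionVars false

namespace Q283.XF

open NumberField Filter Topology Finset Pool.Agent.W401.Cheb
open Q283.TW (ng nrp bord card_pairs prop dens_of)

section
variable {L : Type} [Field L] [NumberField L] [IsGalois ℚ L]

open scoped Classical in
/-- a quotient of two densities -/
theorem ratio_lim (C C₀ : Set Gal(L/ℚ)) (A T : ℕ → Prop) (hA : ∀ p, A p → p.Prime) (D : ℕ)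
    (hD : 0 < D)
    (h0 : ∀ (p : ℕ) [Fact p.Prime], ¬ p ∣ D →
      ∀ (φ : 𝓞 L →+* AlgebraicClosure (ZMod p)) (g : Gal(L/ℚ)), HasFrob p φ g → (A p ↔ g ∈ C₀))
    (h1 : ∀ (p : ℕ) [Fact p.Prime], ¬ p ∣ D →
      ∀ (φ : 𝓞 L →+* AlgebraicClosure (ZMod p)) (g : Gal(L/ℚ)), HasFrob p φ g →
        ((A p ∧ T p) ↔ g ∈ C)) (hC : 0 < Nat.card C₀) :
    Tendsto (fun X : ℕ => (((range (X + 1)).filter fun p => A p ∧ T p).card : ℝ) /
      (((range (X + 1)).filter fun p => A p).card : ℝ)) atTop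
      (𝓝 ((Nat.card C : ℝ) / Nat.card C₀)) := by
  have d0 := dens_of L C₀ A D hD h0
  have d1 := dens_of L C (fun p => A p ∧ T p) D hD h1
  have hGpos : (0 : ℝ) < Nat.card Gal(L/ℚ) := by
    have := Nat.card_pos (α := Gal(L/ℚ))
    exact_mod_cast this
  have hG0pos : (0 : ℝ) < Nat.card C₀ := by exact_mod_cast hC
  have hlim := d1.div d0 (by
    have : (0 : ℝ) < (Nat.card C₀ : ℝ) / Nat.card Gal(L/ℚ) := div_pos hG0pos hGpos
    exact this.ne')
  rw [div_div_div_cancel_right₀ hGpos.ne'] at hlim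
  refine hlim.congr' ?_
  filter_upwards [eventually_ge_atTop 2] with X hX
  have hpc : (Nat.primeCounting X : ℝ) ≠ 0 := by
    have : Nat.primeCounting X ≠ 0 := by
      rw [Ne, Nat.primeCounting_eq_zero_iff]
      omega
    exact_mod_cast this
  have hcount : ∀ Q : ℕ → Prop, (∀ p, Q p → p.Prime) →
      (∑ p ∈ pr X, if Q p then (1 : ℝ) else 0) = (((range (X + 1)).filter fun p => Q p).card : ℝ) := by
    intro Q hQ
    rw [Finset.sum_boole]
    congr 2
    ext p
    unfold pr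
    rw [mem_filter, mem_filter, mem_filter]
    constructor
    · rintro ⟨⟨h1, -⟩, h2⟩; exact ⟨h1, h2⟩
    · rintro ⟨h1, h2⟩; exact ⟨⟨h1, hQ p h2⟩, h2⟩
  show M _ X / M _ X = _
  unfold M
  rw [hcount _ (fun p h => hA p h.1), hcount _ hA, div_div_div_cancel_right₀ hpc]
  congr

variable {R : Finset ℕ} {r : ℕ} (E : Dat L R r) [NeZero r] (hb : Base R r)

theorem Dat.ratio (n : ℕ) {S : Finset ℕ} (hS : S ⊆ R) (P : (S → ZMod 2) × ZMod 2 → Prop) :
    (Nat.card {g : E.G1 n // P (Multiplicative.toAdd (E.Ψ hb n hS g))} : ℝ) /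
      (Nat.card (E.G1 n) : ℝ) =
      (Nat.card {x : (S → ZMod 2) × ZMod 2 // P x} : ℝ) / 2 ^ (Fintype.card S + 1) := by
  have hsur := E.surj hb n hS
  have h1 := card_fib (E.Ψ hb n hS) (fun b => P (Multiplicative.toAdd b)) (fun b _ => hsur b)
  have h2 := card_fib (E.Ψ hb n hS) (fun _ => True) (fun b _ => hsur b)
  have h3 : Nat.card {a : E.G1 n // True} = Nat.card (E.G1 n) :=
    Nat.card_congr (Equiv.subtypeUnivEquiv fun _ => trivial)
  have h4 : Nat.card {b : Multiplicative ((S → ZMod 2) × ZMod 2) // True} =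
      2 ^ (Fintype.card S + 1) := by
    rw [← card_pairs]
    exact Nat.card_congr (Equiv.subtypeUnivEquiv fun _ => trivial)
  have h5 : Nat.card {b : Multiplicative ((S → ZMod 2) × ZMod 2) // P (Multiplicative.toAdd b)} =
      Nat.card {x : (S → ZMod 2) × ZMod 2 // P x} := rfl
  rw [h3, h4] at h2
  rw [h5] at h1
  rw [h1, h2]
  have hk : 0 < Nat.card (E.Ψ hb n hS).ker := Nat.card_pos
  push_cast
  have hk' : (Nat.card (E.Ψ hb n hS).ker : ℝ) ≠ 0 := by positivity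
  field_simp

theorem Dat.ratio' (n : ℕ) {S : Finset ℕ} (hS : S ⊆ R) (P : (S → ZMod 2) → Prop) :
    (Nat.card {g : E.G2 n // (Multiplicative.toAdd (E.Φ hb n hS g)).2 = 1 ∧
      P (Multiplicative.toAdd (E.Φ hb n hS g)).1} : ℝ) /
      (Nat.card {g : E.G2 n // (Multiplicative.toAdd (E.Φ hb n hS g)).2 = 1} : ℝ) =
      (Nat.card {x : S → ZMod 2 // P x} : ℝ) / 2 ^ (Fintype.card S) := by
  have hsur := E.surj' hb n hS
  have h1 := card_fib (E.Φ hb n hS) (fun b => (Multiplicative.toAdd b).2 = 1 ∧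
    P (Multiplicative.toAdd b).1) (fun b _ => hsur b)
  have h2 := card_fib (E.Φ hb n hS) (fun b => (Multiplicative.toAdd b).2 = 1) (fun b _ => hsur b)
  have h4 : Nat.card {b : Multiplicative ((S → ZMod 2) × ZMod 2) //
      (Multiplicative.toAdd b).2 = 1} = 2 ^ (Fintype.card S) := by
    have e : {b : Multiplicative ((S → ZMod 2) × ZMod 2) // (Multiplicative.toAdd b).2 = 1} ≃
        (S → ZMod 2) :=
      { toFun := fun b => (Multiplicative.toAdd b.1).1
        invFun := fun v => ⟨Multiplicative.ofAdd (v, 1), rfl⟩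
        left_inv := by
          rintro ⟨b, hb⟩
          apply Subtype.ext
          show Multiplicative.ofAdd ((Multiplicative.toAdd b).1, (1 : ZMod 2)) = b
          rw [← hb]
          rfl
        right_inv := fun v => rfl }
    rw [Nat.card_congr e, Nat.card_eq_fintype_card, Fintype.card_fun, ZMod.card]
  have h5 : Nat.card {b : Multiplicative ((S → ZMod 2) × ZMod 2) //
      (Multiplicative.toAdd b).2 = 1 ∧ P (Multiplicative.toAdd b).1} =
      Nat.card {x : S → ZMod 2 // P x} := by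
    refine Nat.card_congr
      { toFun := fun b => ⟨(Multiplicative.toAdd b.1).1, b.2.2⟩
        invFun := fun v => ⟨Multiplicative.ofAdd (v.1, 1), rfl, v.2⟩
        left_inv := by
          rintro ⟨b, hb, hb'⟩
          apply Subtype.ext
          show Multiplicative.ofAdd ((Multiplicative.toAdd b).1, (1 : ZMod 2)) = b
          rw [← hb]
          rfl
        right_inv := fun v => rfl }
  rw [h4] at h2
  rw [h5] at h1
  rw [h1, h2]
  have hk : 0 < Nat.card (E.Φ hb n hS).ker := Nat.card_pos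
  push_cast
  have hk' : (Nat.card (E.Φ hb n hS).ker : ℝ) ≠ 0 := by positivity
  field_simp

end

/-- the proportion of the vectors which make the matrix nonsingular when added to the diagonal -/
noncomputable def dprop {n : Type} [Fintype n] [DecidableEq n] (A : Matrix n n (ZMod 2)) : ℝ :=
  (Nat.card {v : n → ZMod 2 // (A + Matrix.diagonal v).det ≠ 0} : ℝ) / 2 ^ Fintype.card n

theorem dprop_pos {n : Type} [Fintype n] [DecidableEq n] (A : Matrix n n (ZMod 2)) :
    0 < dprop A := by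
  unfold dprop
  obtain ⟨v, h⟩ := Q283.TW.exists_diag A
  have : Nonempty {v : n → ZMod 2 // (A + Matrix.diagonal v).det ≠ 0} := ⟨⟨v, h⟩⟩
  have h1 : 0 < Nat.card {v : n → ZMod 2 // (A + Matrix.diagonal v).det ≠ 0} := Nat.card_pos
  positivity

theorem hgood {R : Finset ℕ} {r : ℕ} {p : ℕ} (hpd : ¬ p ∣ 14 * r * ∏ q ∈ R, q) :
    p ≠ 2 ∧ p ≠ 7 ∧ p ≠ r ∧ p ∉ R := by
  refine ⟨?_, ?_, ?_, ?_⟩
  · rintro rfl; exact hpd (Dvd.dvd.mul_right (Dvd.dvd.mul_right (by norm_num) _) _)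
  · rintro rfl; exact hpd (Dvd.dvd.mul_right (Dvd.dvd.mul_right (by norm_num) _) _)
  · rintro rfl; exact hpd (Dvd.dvd.mul_right (Dvd.intro_left _ rfl) _)
  · intro h; exact hpd ((Finset.dvd_prod_of_mem (fun r => r) h).mul_left _)

theorem exists_dat {R : Finset ℕ} {r : ℕ} (hb : Base R r) : ∃ (L : Type) (_ : Field L)
    (_ : NumberField L) (_ : IsGalois ℚ L), Nonempty (Dat L R r) := by
  obtain ⟨L, hL, hN, hG, s, θ, z, hθ, hz, hs⟩ := exists_field
    (({-1} : Finset ℤ) ∪ R.image (fun r : ℕ => (r : ℤ))) r hb.hr.pos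
  exact ⟨L, hL, hN, hG, ⟨{
    s := s
    θ := θ
    z := z
    hθ := hθ
    hz := hz
    h1 := hs _ (by simp)
    hr := fun r hr => hs _ (by simp [hr]) }⟩⟩

open scoped Classical in
/-- **The density for the split primes.** -/
theorem split_density {R S : Finset ℕ} {r : ℕ} (hb : Base R r) (n : ℕ) (hS : S ⊆ R)
    (A : Matrix S S (ZMod 2)) (T : ℕ → Prop)
    (hT : ∀ p, Cl1 r n p → p ∉ R → (T p ↔ (bord A (fun q : S => nrp p q)
      (∑ q ∈ R, nrp p q + nf p)).det ≠ 0)) :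
    Tendsto (fun X : ℕ => (((range (X + 1)).filter fun p => Cl1 r n p ∧ T p).card : ℝ) /
      (((range (X + 1)).filter fun p => Cl1 r n p).card : ℝ)) atTop (𝓝 (prop A)) := by
  haveI : NeZero r := ⟨hb.hr.ne_zero⟩
  obtain ⟨L, hL, hN, hG, ⟨E⟩⟩ := exists_dat hb
  set P : (S → ZMod 2) × ZMod 2 → Prop := fun x => (bord A x.1 x.2).det ≠ 0 with hP
  set C : Set Gal(L/ℚ) := {g | ∃ h : g ∈ E.G1 n, P (Multiplicative.toAdd (E.Ψ hb n hS ⟨g, h⟩))}
    with hC
  have hD0 : 0 < 14 * r * ∏ q ∈ R, q := by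
    have h1 : 0 < ∏ q ∈ R, q := Finset.prod_pos fun q hq => (hb.hR q hq).1.pos
    have h2 := hb.hr.pos
    positivity
  have hCcard : Nat.card C = Nat.card {g : E.G1 n // P (Multiplicative.toAdd (E.Ψ hb n hS g))} := by
    refine Nat.card_congr
      { toFun := fun x => ⟨⟨x.1, x.2.1⟩, x.2.2⟩
        invFun := fun x => ⟨x.1.1, x.1.2, x.2⟩
        left_inv := fun x => rfl
        right_inv := fun x => rfl }
  have hlim := ratio_lim (L := L) C (E.G1 n : Set Gal(L/ℚ)) (Cl1 r n) T (fun p h => h.1)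
    (14 * r * ∏ q ∈ R, q) hD0 (by
      intro p hp hpd φ g hφ
      obtain ⟨h2, h7, hpr, hpR⟩ := hgood hpd
      exact (E.frob_facts hb n h2 h7 hpr hpR hφ).1) (by
      intro p hp hpd φ g hφ
      obtain ⟨h2, h7, hpr, hpR⟩ := hgood hpd
      obtain ⟨f1, -, f2, -, f3⟩ := E.frob_facts hb n h2 h7 hpr hpR hφ
      have key : ∀ hsp : Cl1 r n p, (T p ↔ P (Multiplicative.toAdd
          (E.Ψ hb n hS ⟨g, f1.1 hsp⟩))) := by
        intro hsp
        rw [hT p hsp hpR]
        have e1 : (fun q : S => nrp p q) = fun q : S => ng g (E.s ((q : ℕ) : ℤ)) := by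
          funext q
          exact f2 q (hS q.2)
        have e2 : ∑ q ∈ R, nrp p q + nf p = E.dg g := by
          unfold Dat.dg
          rw [f3 hsp, Finset.sum_congr rfl f2]
        rw [e1, e2]
        exact Iff.rfl
      constructor
      · rintro ⟨hsp, hTp⟩
        exact ⟨f1.1 hsp, (key hsp).1 hTp⟩
      · rintro ⟨hg, hPg⟩
        exact ⟨f1.2 hg, (key (f1.2 hg)).2 hPg⟩) (by
      show 0 < Nat.card (E.G1 n)
      exact Nat.card_pos)
  have hval : (Nat.card C : ℝ) / (Nat.card (E.G1 n : Set Gal(L/ℚ)) : ℝ) = prop A := by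
    have h1 := E.ratio hb n hS P
    have h2 : (Nat.card (E.G1 n : Set Gal(L/ℚ)) : ℝ) = Nat.card (E.G1 n) := rfl
    rw [hCcard, h2, h1]
    rfl
  rw [hval] at hlim
  exact hlim

/-- the class of inert primes -/
def Cl3 (r n p : ℕ) : Prop :=
  p.Prime ∧ p % 4 = 1 ∧ ¬ IsSquare (-7 : ZMod p) ∧ p ≠ r ∧ ∃ y : ZMod r, y ^ 2 ^ n = (p : ZMod r) ^ 2

open scoped Classical in
/-- **The density for the inert primes.** -/
theorem inert_density {R S : Finset ℕ} {r : ℕ} (hb : Base R r) (n : ℕ) (hS : S ⊆ R)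
    (A : Matrix S S (ZMod 2)) (T : ℕ → Prop)
    (hT : ∀ p, Cl3 r n p → p ∉ R →
      (T p ↔ (A + Matrix.diagonal (fun q : S => nrp p q)).det ≠ 0)) :
    Tendsto (fun X : ℕ => (((range (X + 1)).filter fun p => Cl3 r n p ∧ T p).card : ℝ) /
      (((range (X + 1)).filter fun p => Cl3 r n p).card : ℝ)) atTop (𝓝 (dprop A)) := by
  haveI : NeZero r := ⟨hb.hr.ne_zero⟩
  obtain ⟨L, hL, hN, hG, ⟨E⟩⟩ := exists_dat hb
  set P : (S → ZMod 2) → Prop := fun x => (A + Matrix.diagonal x).det ≠ 0 with hP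
  set C₀ : Set Gal(L/ℚ) := {g | ∃ h : g ∈ E.G2 n,
    (Multiplicative.toAdd (E.Φ hb n hS ⟨g, h⟩)).2 = 1} with hC₀
  set C : Set Gal(L/ℚ) := {g | ∃ h : g ∈ E.G2 n,
    (Multiplicative.toAdd (E.Φ hb n hS ⟨g, h⟩)).2 = 1 ∧
      P (Multiplicative.toAdd (E.Φ hb n hS ⟨g, h⟩)).1} with hC
  have hD0 : 0 < 14 * r * ∏ q ∈ R, q := by
    have h1 : 0 < ∏ q ∈ R, q := Finset.prod_pos fun q hq => (hb.hR q hq).1.pos
    have h2 := hb.hr.pos
    positivity
  have hCcard : Nat.card C = Nat.card {g : E.G2 n //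
      (Multiplicative.toAdd (E.Φ hb n hS g)).2 = 1 ∧
        P (Multiplicative.toAdd (E.Φ hb n hS g)).1} := by
    refine Nat.card_congr
      { toFun := fun x => ⟨⟨x.1, x.2.1⟩, x.2.2⟩
        invFun := fun x => ⟨x.1.1, x.1.2, x.2⟩
        left_inv := fun x => rfl
        right_inv := fun x => rfl }
  have hC0card : Nat.card C₀ = Nat.card {g : E.G2 n //
      (Multiplicative.toAdd (E.Φ hb n hS g)).2 = 1} := by
    refine Nat.card_congr
      { toFun := fun x => ⟨⟨x.1, x.2.1⟩, x.2.2⟩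
        invFun := fun x => ⟨x.1.1, x.1.2, x.2⟩
        left_inv := fun x => rfl
        right_inv := fun x => rfl }
  have key0 : ∀ (p : ℕ) [Fact p.Prime], ¬ p ∣ 14 * r * ∏ q ∈ R, q →
      ∀ (φ : 𝓞 L →+* AlgebraicClosure (ZMod p)) (g : Gal(L/ℚ)), HasFrob p φ g →
      (Cl3 r n p ↔ g ∈ C₀) := by
    intro p hp hpd φ g hφ
    obtain ⟨h2, h7, hpr, hpR⟩ := hgood hpd
    obtain ⟨-, f1, -, f4, -⟩ := E.frob_facts hb n h2 h7 hpr hpR hφ
    have f5 : ¬ IsSquare (-7 : ZMod p) ↔ ng g (E.θ ^ 2) = 1 := by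
      rw [f4]
      unfold ng
      by_cases hc : g (E.θ ^ 2) = E.θ ^ 2
      · rw [if_pos hc]
        exact ⟨fun h => absurd hc h, fun h => absurd h zero_ne_one⟩
      · rw [if_neg hc]
        exact ⟨fun _ => rfl, fun _ => hc⟩
    constructor
    · rintro ⟨ha, ha4, hb, hne, hy⟩
      exact ⟨f1.1 ⟨ha, ha4, hy⟩, f5.1 hb⟩
    · rintro ⟨ha, hb⟩
      obtain ⟨a1, a2, a3⟩ := f1.2 ha
      exact ⟨a1, a2, f5.2 hb, hpr, a3⟩
  have hlim := ratio_lim (L := L) C C₀ (Cl3 r n) T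
    (fun p h => h.1) (14 * r * ∏ q ∈ R, q) hD0 key0 (by
      intro p hp hpd φ g hφ
      obtain ⟨h2, h7, hpr, hpR⟩ := hgood hpd
      have k0 := key0 p hpd φ g hφ
      obtain ⟨-, f1, f2, f4, -⟩ := E.frob_facts hb n h2 h7 hpr hpR hφ
      have key : ∀ (hsp : Cl3 r n p),
          (T p ↔ P (Multiplicative.toAdd (E.Φ hb n hS ⟨g, f1.1 ⟨hsp.1, hsp.2.1, hsp.2.2.2.2⟩⟩)).1) := by
        intro hsp
        rw [hT p hsp hpR]
        have e1 : (fun q : S => nrp p q) = fun q : S => ng g (E.s ((q : ℕ) : ℤ)) := by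
          funext q
          exact f2 q (hS q.2)
        rw [e1]
        exact Iff.rfl
      constructor
      · rintro ⟨hsp, hTp⟩
        obtain ⟨a1, a2⟩ := k0.1 hsp
        exact ⟨a1, a2, (key hsp).1 hTp⟩
      · rintro ⟨hg, a2, hPg⟩
        have hsp := k0.2 ⟨hg, a2⟩
        exact ⟨hsp, (key hsp).2 hPg⟩) (by
      have hsur := E.surj' hb n hS
      obtain ⟨g, hg⟩ := hsur (Multiplicative.ofAdd (0, 1))
      have : Nonempty C₀ := ⟨⟨g.1, g.2, by
        show (Multiplicative.toAdd (E.Φ hb n hS g)).2 = 1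
        rw [hg]; rfl⟩⟩
      exact Nat.card_pos)
  have hval : (Nat.card C : ℝ) / (Nat.card C₀ : ℝ) = dprop A := by
    have h1 := E.ratio' hb n hS P
    rw [hCcard, hC0card, h1]
    rfl
  rw [hval] at hlim
  exact hlim

end Q283.XF
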