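import Pool.Agent.Q283.XF.Main
import Pool.Agent.Y698.SG.Uj
import Pool.Agent.Y698.SG.Fj
import Pool.Agent.Y698.SG.Ug
import Pool.Agent.Y698.SG.Dwc
import Pool.Agent.Y698.SG.Ebb

/-!
# The matrices of `D p`
-/

set_option autoImplicit false
set_option linter.style.haveILetI false

namespace Q283.XF

open Filter Topology Finset
open Q283.TW (nrp bord prop)
open Pool.Agent.Y698.SG (nq n4 mat nq_comm Gp Spl)

theorem nq_eq (p m : ℕ) : nq p m = nrp p m := rfl

theorem n4_eq (p : ℕ) : n4 p = nf p := rfl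

/-- the equivalence of the index sets -/
noncomputable def eqv {P : Finset ℕ} {p : ℕ} (hpP : p ∉ P) : P ⊕ Unit ≃ (insert p P : Finset ℕ) := by
  refine Equiv.ofBijective (Sum.elim
    (fun q : P => (⟨(q : ℕ), Finset.mem_insert_of_mem q.2⟩ : (insert p P : Finset ℕ)))
    (fun _ : Unit => ⟨p, Finset.mem_insert_self _ _⟩)) ⟨?_, ?_⟩
  · rintro (q | q) (q' | q') h
    · simp only [Sum.elim_inl, Subtype.mk.injEq] at h
      rw [Subtype.ext h]
    · simp only [Sum.elim_inl, Sum.elim_inr, Subtype.mk.injEq] at h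
      exact absurd (h ▸ q.2) hpP
    · simp only [Sum.elim_inl, Sum.elim_inr, Subtype.mk.injEq] at h
      exact absurd (h ▸ q'.2) hpP
    · rfl
  · rintro ⟨x, hx⟩
    rcases Finset.mem_insert.1 hx with h | h
    · exact ⟨Sum.inr (), Subtype.ext h.symm⟩
    · exact ⟨Sum.inl ⟨x, h⟩, rfl⟩

theorem eqv_inl {P : Finset ℕ} {p : ℕ} (hpP : p ∉ P) (q : P) :
    ((eqv hpP (Sum.inl q) : (insert p P : Finset ℕ)) : ℕ) = q := rfl

theorem eqv_inr {P : Finset ℕ} {p : ℕ} (hpP : p ∉ P) (q : Unit) :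
    ((eqv hpP (Sum.inr q) : (insert p P : Finset ℕ)) : ℕ) = p := rfl

theorem det_split {Q P : Finset ℕ} {p : ℕ} (hd : Disjoint Q P) (hP : ∀ q ∈ P, Gp q) (hp : Gp p)
    (hpP : p ∉ P) :
    (mat Q (insert p P)).det = (bord (mat Q P) (fun q : P => nrp p q)
      (∑ q ∈ Q ∪ P, nrp p q + nf p)).det := by
  rw [← Matrix.det_submatrix_equiv_self (eqv hpP) (mat Q (insert p P))]
  congr 1
  ext i j
  rw [Matrix.submatrix_apply]
  unfold mat bord
  rw [Matrix.of_apply]
  rcases i with i | i <;> rcases j with j | j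
  · rw [Matrix.fromBlocks_apply₁₁, Matrix.add_apply, Matrix.of_apply, Matrix.diagonal_apply,
      eqv_inl, eqv_inl]
    by_cases hij : i = j
    · subst hij
      rw [if_pos rfl, if_pos rfl, if_pos rfl]
      have hpi : (i : ℕ) ≠ p := by
        intro h
        exact hpP (h ▸ i.2)
      rw [Finset.erase_insert_of_ne hpi.symm, Finset.sum_insert (fun h => hpP (Finset.mem_of_mem_erase h)),
        nq_comm (hP i i.2) hp, nq_eq p i]
      ring
    · rw [if_neg (fun h => hij (Sum.inl_injective ((eqv hpP).injective h))), if_neg hij,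
        if_neg hij, add_zero]
  · rw [Matrix.fromBlocks_apply₁₂, Matrix.of_apply, eqv_inl, eqv_inr, if_neg]
    · rw [nq_comm (hP i i.2) hp, nq_eq]
    · intro h
      exact absurd ((eqv hpP).injective h) (by simp)
  · rw [Matrix.fromBlocks_apply₂₁, Matrix.of_apply, eqv_inl, eqv_inr, if_neg]
    · rw [nq_eq]
    · intro h
      exact absurd ((eqv hpP).injective h) (by simp)
  · rw [Matrix.fromBlocks_apply₂₂, Matrix.of_apply, eqv_inr, if_pos (by rfl), n4_eq,
      Finset.erase_insert hpP, Finset.sum_union hd]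
    simp only [nq_eq]
    ring

theorem det_inert {Q P : Finset ℕ} {q : ℕ} (hP : ∀ p ∈ P, Gp p) (hq : Gp q) (hqQ : q ∉ Q) :
    (mat (insert q Q) P).det = (mat Q P + Matrix.diagonal (fun p : P => nrp q p)).det := by
  congr 1
  ext i j
  unfold mat
  rw [Matrix.add_apply, Matrix.of_apply, Matrix.of_apply, Matrix.diagonal_apply]
  by_cases hij : i = j
  · subst hij
    rw [if_pos rfl, if_pos rfl, if_pos rfl, Finset.sum_insert hqQ, nq_comm (hP i i.2) hq, nq_eq q i]
    ring
  · rw [if_neg hij, if_neg hij, if_neg hij, add_zero]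

end Q283.XF
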