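import Pool.Agent.Q283.XF.Gal

/-!
# The symbols as homomorphisms, surjectivity
-/

set_option autoImplicit false
set_option linter.style.haveILetI false
set_option linter.unusedSectionVars false

namespace Q283.XF

open NumberField Filter Topology Finset Pool.Agent.W401.Cheb Polynomial
open Q283.TW (gen_split_rat coe_smul' fixed_iff two_ne gal_sqrt frob_sqrt ng ng_mul nrp
  ne_zero_of bord card_pairs)

open scoped Classical in
/-- the quartic symbol of `-7`, additively -/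
noncomputable def nf (p : ℕ) : ZMod 2 := if ∃ y : ZMod p, y ^ 4 = -7 then 0 else 1

/-- the first class of primes -/
def Cl1 (r n p : ℕ) : Prop :=
  p.Prime ∧ p % 4 = 1 ∧ IsSquare (-7 : ZMod p) ∧ ∃ y : ZMod r, y ^ 2 ^ n = (p : ZMod r)

/-- the second class of primes, together with the first -/
def Cl2 (r n p : ℕ) : Prop :=
  p.Prime ∧ p % 4 = 1 ∧ ∃ y : ZMod r, y ^ 2 ^ n = (p : ZMod r) ^ 2

/-- the data -/
structure Dat (L : Type) [Field L] [NumberField L] [IsGalois ℚ L] (R : Finset ℕ) (r : ℕ) where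
  s : ℤ → L
  θ : L
  z : L
  hθ : θ ^ 4 = -7
  hz : IsPrimitiveRoot z r
  h1 : (s (-1)) ^ 2 = ((-1 : ℤ) : L)
  hr : ∀ q ∈ R, (s (q : ℤ)) ^ 2 = (((q : ℕ) : ℤ) : L)

section
variable {L : Type} [Field L] [NumberField L] [IsGalois ℚ L] {R : Finset ℕ} {r : ℕ}
  (E : Dat L R r)

theorem Dat.θ0 : E.θ ≠ 0 := theta_ne E.hθ

theorem Dat.θ2 : (E.θ ^ 2) ^ 2 = ((-7 : ℤ) : L) := by
  rw [← pow_mul, E.hθ]; norm_num

variable [NeZero r]

/-- the cyclotomic character -/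
noncomputable def Dat.χ : Gal(L/ℚ) →* (ZMod r)ˣ := E.hz.autToPow ℚ

/-- the subgroup of the first class -/
noncomputable def Dat.G1 (n : ℕ) : Subgroup Gal(L/ℚ) :=
  MulAction.stabilizer Gal(L/ℚ) (E.s (-1)) ⊓ (MulAction.stabilizer Gal(L/ℚ) (E.θ ^ 2) ⊓
    ((powMonoidHom (2 ^ n) : (ZMod r)ˣ →* (ZMod r)ˣ).range).comap E.χ)

/-- the subgroup of both classes -/
noncomputable def Dat.G2 (n : ℕ) : Subgroup Gal(L/ℚ) :=
  MulAction.stabilizer Gal(L/ℚ) (E.s (-1)) ⊓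
    (((powMonoidHom (2 ^ n) : (ZMod r)ˣ →* (ZMod r)ˣ).range).comap (powMonoidHom 2)).comap E.χ

theorem Dat.mem_G1 {n : ℕ} {g : Gal(L/ℚ)} : g ∈ E.G1 n ↔
    g (E.s (-1)) = E.s (-1) ∧ g (E.θ ^ 2) = E.θ ^ 2 ∧ ∃ u : (ZMod r)ˣ, u ^ 2 ^ n = E.χ g := by
  unfold Dat.G1
  rw [Subgroup.mem_inf, Subgroup.mem_inf, MulAction.mem_stabilizer_iff,
    MulAction.mem_stabilizer_iff, Subgroup.mem_comap, MonoidHom.mem_range]
  exact Iff.rfl

theorem Dat.mem_G2 {n : ℕ} {g : Gal(L/ℚ)} : g ∈ E.G2 n ↔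
    g (E.s (-1)) = E.s (-1) ∧ ∃ u : (ZMod r)ˣ, u ^ 2 ^ n = E.χ g ^ 2 := by
  unfold Dat.G2
  rw [Subgroup.mem_inf, MulAction.mem_stabilizer_iff, Subgroup.mem_comap, Subgroup.mem_comap,
    MonoidHom.mem_range]
  exact Iff.rfl

theorem Dat.hθpm {n : ℕ} {g : Gal(L/ℚ)} (hg : g ∈ E.G1 n) : g E.θ = E.θ ∨ g E.θ = -E.θ :=
  gal_theta g (E.mem_G1.1 hg).2.1

variable (hb : Base R r)

include hb in
theorem Dat.s0 {q : ℕ} (h : q ∈ R) : E.s (q : ℤ) ≠ 0 := by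
  intro h0
  have h1 := E.hr q h
  rw [h0, zero_pow (by norm_num)] at h1
  have h2 : ((q : ℕ) : L) = 0 := by exact_mod_cast h1.symm
  exact (hb.hR q h).1.ne_zero (by exact_mod_cast h2)

/-- the corner -/
noncomputable def Dat.dg (g : Gal(L/ℚ)) : ZMod 2 := ∑ q ∈ R, ng g (E.s (q : ℤ)) + ng g E.θ

/-- the homomorphism to the symbols -/
noncomputable def Dat.Ψ (n : ℕ) {S : Finset ℕ} (hS : S ⊆ R) :
    E.G1 n →* Multiplicative ((S → ZMod 2) × ZMod 2) where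
  toFun g := Multiplicative.ofAdd (fun q : S => ng g.1 (E.s ((q : ℕ) : ℤ)), E.dg g.1)
  map_one' := by
    have h : ∀ x : L, ng (1 : Gal(L/ℚ)) x = 0 := fun x => by unfold ng; simp
    rw [← ofAdd_zero]
    congr 1
    unfold Dat.dg
    simp [h]
    rfl
  map_mul' g h := by
    rw [← ofAdd_add]
    congr 1
    have hr : ∀ q ∈ R, ng (g.1 * h.1) (E.s (q : ℤ)) = ng g.1 (E.s (q : ℤ)) + ng h.1 (E.s (q : ℤ)) :=
      fun q hq => ng_mul _ _ (E.s0 hb hq) (gal_sqrt g.1 (E.hr q hq)) (gal_sqrt h.1 (E.hr q hq))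
    refine Prod.ext ?_ ?_
    · funext q
      exact hr q (hS q.2)
    · show E.dg (g.1 * h.1) = E.dg g.1 + E.dg h.1
      unfold Dat.dg
      rw [Finset.sum_congr rfl hr, Finset.sum_add_distrib,
        ng_mul _ _ E.θ0 (E.hθpm g.2) (E.hθpm h.2)]
      ring

/-- the homomorphism to the symbols, second class -/
noncomputable def Dat.Φ (n : ℕ) {S : Finset ℕ} (hS : S ⊆ R) :
    E.G2 n →* Multiplicative ((S → ZMod 2) × ZMod 2) where
  toFun g := Multiplicative.ofAdd (fun q : S => ng g.1 (E.s ((q : ℕ) : ℤ)), ng g.1 (E.θ ^ 2))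
  map_one' := by
    have h : ∀ x : L, ng (1 : Gal(L/ℚ)) x = 0 := fun x => by unfold ng; simp
    rw [← ofAdd_zero]
    congr 1
    simp only [OneMemClass.coe_one, h]
    rfl
  map_mul' g h := by
    rw [← ofAdd_add]
    congr 1
    have hr : ∀ q ∈ R, ng (g.1 * h.1) (E.s (q : ℤ)) = ng g.1 (E.s (q : ℤ)) + ng h.1 (E.s (q : ℤ)) :=
      fun q hq => ng_mul _ _ (E.s0 hb hq) (gal_sqrt g.1 (E.hr q hq)) (gal_sqrt h.1 (E.hr q hq))
    refine Prod.ext ?_ ?_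
    · funext q
      exact hr q (hS q.2)
    · show ng (g.1 * h.1) (E.θ ^ 2) = ng g.1 (E.θ ^ 2) + ng h.1 (E.θ ^ 2)
      exact ng_mul _ _ (pow_ne_zero 2 E.θ0) (gal_sqrt g.1 E.θ2) (gal_sqrt h.1 E.θ2)

/-! ### Frobenius elements -/

theorem sq7_iff {p : ℕ} [Fact p.Prime] (hp4 : p % 4 = 1) :
    IsSquare (-7 : ZMod p) ↔ IsSquare (p : ZMod 7) := by
  have hneg : IsSquare (-1 : ZMod p) := ZMod.exists_sq_eq_neg_one_iff.2 (by omega)
  have h7 : IsSquare ((7 : ℕ) : ZMod p) ↔ IsSquare (-7 : ZMod p) := by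
    constructor
    · intro h
      have := hneg.mul h
      push_cast at this
      rwa [neg_one_mul] at this
    · intro h
      have := hneg.mul h
      push_cast
      rwa [neg_one_mul, neg_neg] at this
  rw [← h7]
  haveI : Fact (Nat.Prime 7) := ⟨by norm_num⟩
  exact ZMod.exists_sq_eq_prime_iff_of_mod_four_eq_one hp4 (by norm_num)

theorem pow_unit_iff (hr : r.Prime) {m k : ℕ} {a : ZMod r} {u : (ZMod r)ˣ} (hk : k ≠ 0)
    (h : (u : ZMod r) ^ m = a) : (∃ v : (ZMod r)ˣ, v ^ k = u ^ m) ↔ ∃ y : ZMod r, y ^ k = a := by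
  haveI : Fact r.Prime := ⟨hr⟩
  constructor
  · rintro ⟨v, hv⟩
    refine ⟨v, ?_⟩
    rw [← h, ← Units.val_pow_eq_pow_val, ← Units.val_pow_eq_pow_val, hv]
  · rintro ⟨y, hy⟩
    have hy0 : y ≠ 0 := by
      rintro rfl
      rw [zero_pow hk] at hy
      rw [← h, ← Units.val_pow_eq_pow_val] at hy
      exact Units.ne_zero _ hy.symm
    refine ⟨Units.mk0 y hy0, ?_⟩
    apply Units.ext
    rw [Units.val_pow_eq_pow_val, Units.val_mk0, hy, Units.val_pow_eq_pow_val, h]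

include hb in
theorem Dat.frob_chi {p : ℕ} [hp : Fact p.Prime] (hpr : p ≠ r)
    {φ : 𝓞 L →+* AlgebraicClosure (ZMod p)} {g : Gal(L/ℚ)} (hφ : HasFrob p φ g) :
    ((E.χ g : (ZMod r)ˣ) : ZMod r) = p := by
  obtain ⟨Z, hZ⟩ : ∃ S : 𝓞 L, algebraMap (𝓞 L) L S = E.z :=
    ⟨⟨E.z, E.hz.isIntegral hb.hr.pos⟩, rfl⟩
  have hinj : Function.Injective (algebraMap (𝓞 L) L) := RingOfIntegers.coe_injective
  have hZp : IsPrimitiveRoot Z r := by
    apply IsPrimitiveRoot.of_map_of_injective (f := algebraMap (𝓞 L) L) _ hinj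
    rw [hZ]; exact E.hz
  have h1 : E.z ^ ((E.χ g : (ZMod r)ˣ) : ZMod r).val = g E.z :=
    IsPrimitiveRoot.autToPow_spec ℚ E.hz g
  have h2 : g • Z = Z ^ ((E.χ g : (ZMod r)ˣ) : ZMod r).val := by
    apply hinj
    rw [coe_smul', map_pow, hZ, h1]
  have h3 := frob_root hb.hr hZp hpr hφ h2
  rw [ZMod.natCast_zmod_val] at h3
  exact h3

include hb in
theorem Dat.frob_facts (n : ℕ) {p : ℕ} [hp : Fact p.Prime] (h2 : p ≠ 2) (h7 : p ≠ 7) (hpr : p ≠ r)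
    (hpR : p ∉ R) {φ : 𝓞 L →+* AlgebraicClosure (ZMod p)} {g : Gal(L/ℚ)} (hφ : HasFrob p φ g) :
    (Cl1 r n p ↔ g ∈ E.G1 n) ∧ (Cl2 r n p ↔ g ∈ E.G2 n) ∧
      (∀ q ∈ R, nrp p q = ng g (E.s (q : ℤ))) ∧
      (IsSquare (-7 : ZMod p) ↔ g (E.θ ^ 2) = E.θ ^ 2) ∧
      (Cl1 r n p → nf p = ng g E.θ) := by
  have f1 := frob_sqrt hφ E.h1 h2 (by push_cast; simp)
  have f7 := frob_sqrt hφ E.θ2 h2 (by
    have := ne_zero_of (p := p) (q := 7) (by norm_num) h7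
    push_cast at this ⊢
    exact neg_ne_zero.2 this)
  push_cast at f1 f7
  have hp4 : p % 4 = 1 ↔ IsSquare (-1 : ZMod p) := by
    rw [ZMod.exists_sq_eq_neg_one_iff]
    have := hp.out.eq_two_or_odd
    omega
  have hχ := E.frob_chi hb hpr hφ
  have hk : 2 ^ n ≠ 0 := pow_ne_zero n two_ne_zero
  have c1 : Cl1 r n p ↔ g ∈ E.G1 n := by
    unfold Cl1
    rw [E.mem_G1, hp4, f1, f7, ← pow_unit_iff hb.hr (m := 1) (u := E.χ g) hk (by rw [pow_one, hχ]),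
      pow_one]
    exact ⟨fun h => h.2, fun h => ⟨hp.out, h⟩⟩
  have c2 : Cl2 r n p ↔ g ∈ E.G2 n := by
    unfold Cl2
    rw [E.mem_G2, hp4, f1, ← pow_unit_iff hb.hr (m := 2) (u := E.χ g) hk (by rw [hχ])]
    exact ⟨fun h => h.2, fun h => ⟨hp.out, h⟩⟩
  refine ⟨c1, c2, ?_, f7, ?_⟩
  · intro q hq
    have hrp : p ≠ q := by rintro rfl; exact hpR hq
    have f := frob_sqrt hφ (E.hr q hq) h2 (ne_zero_of (hb.hR q hq).1 hrp)
    unfold nrp ng
    have e : ((((q : ℕ) : ℤ)) : ZMod p) = (q : ZMod p) := by push_cast; rfl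
    rw [e] at f
    by_cases hc : IsSquare (q : ZMod p)
    · rw [if_pos hc, if_pos (f.1 hc)]
    · rw [if_neg hc, if_neg (fun h => hc (f.2 h))]
  · intro hs
    have hg := c1.1 hs
    have f := frob_theta hφ E.hθ (E.mem_G1.1 hg).2.1 h2 h7 (hp4.1 hs.2.1)
    unfold nf ng
    by_cases hc : ∃ y : ZMod p, y ^ 4 = -7
    · rw [if_pos hc, if_pos (f.1 hc)]
    · rw [if_neg hc, if_neg (fun h => hc (f.2 h))]

theorem good_of_large {D : ℕ} {p : ℕ} (h : D + 7 + r + ∑ q ∈ R, q < p) : p ≠ 2 ∧ p ≠ 7 ∧ p ≠ r ∧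
    p ∉ R ∧ (0 < D → ¬ p ∣ D) := by
  refine ⟨by omega, by omega, by omega, ?_, ?_⟩
  · intro hp
    have := Finset.single_le_sum (f := fun r => r) (fun i _ => Nat.zero_le i) hp
    omega
  · intro hD hd
    have := Nat.le_of_dvd hD hd
    omega

theorem cl1_of {n p : ℕ} [hp : Fact p.Prime] (hp4 : p % 4 = 1) (h7 : p ≡ 1 [MOD 7])
    (hr : p ≡ 1 [MOD r]) : Cl1 r n p := by
  refine ⟨hp.out, hp4, ?_, 1, ?_⟩
  · rw [sq7_iff hp4]
    have : (p : ZMod 7) = (1 : ℕ) := (ZMod.natCast_eq_natCast_iff _ _ _).2 h7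
    rw [this]
    exact ⟨1, by simp⟩
  · have : (p : ZMod r) = (1 : ℕ) := (ZMod.natCast_eq_natCast_iff _ _ _).2 hr
    rw [this, one_pow]
    simp

theorem cl2_of {n p : ℕ} [hp : Fact p.Prime] (hp4 : p % 4 = 1)
    (hr : p ≡ 1 [MOD r]) : Cl2 r n p := by
  refine ⟨hp.out, hp4, 1, ?_⟩
  have : (p : ZMod r) = (1 : ℕ) := (ZMod.natCast_eq_natCast_iff _ _ _).2 hr
  rw [this, one_pow]
  simp

include hb in
/-- an automorphism fixing all the square roots and changing the sign of `θ` -/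
theorem Dat.exists_flip (n : ℕ) : ∃ h ∈ E.G1 n, (∀ q ∈ R, h (E.s (q : ℤ)) = E.s (q : ℤ)) ∧
    h E.θ = -E.θ := by
  obtain ⟨D₁, hD₁, htor⟩ := torsor L
  obtain ⟨p, hpB, hp, hp4, hp7, hp1, -⟩ := exists_prime_sym hb 3 (by norm_num) (fun _ => True)
    (D₁ + 7 + r + ∑ q ∈ R, q)
  obtain ⟨h2, h7, hpr, hpR, hpD⟩ := good_of_large hpB
  haveI : Fact p.Prime := ⟨hp⟩
  have ht := htor p (hpD hD₁)
  obtain ⟨φ⟩ := nonempty_hom ht
  obtain ⟨k, hk⟩ := exists_frob ht φ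
  obtain ⟨-, f2, -, f4, -⟩ := E.frob_facts hb n h2 h7 hpr hpR hk
  have hχ := E.frob_chi hb hpr hk
  have hχ1 : E.χ k = 1 := by
    apply Units.ext
    rw [hχ]
    have : (p : ZMod r) = (1 : ℕ) := (ZMod.natCast_eq_natCast_iff _ _ _).2 hp1
    rw [this]
    simp
  have hk1 : k (E.s (-1)) = E.s (-1) := (E.mem_G2.1 (f2.1 (cl2_of hp4 hp1))).1
  have n7 : k (E.θ ^ 2) = -E.θ ^ 2 := by
    rcases gal_sqrt k E.θ2 with h | h
    · exfalso
      have h3 := f4.2 h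
      rw [sq7_iff hp4] at h3
      have : (p : ZMod 7) = (3 : ℕ) := (ZMod.natCast_eq_natCast_iff _ _ _).2 hp7
      rw [this] at h3
      revert h3
      decide
    · exact h
  have hsq : ∀ (x : L) (a : ℤ), x ^ 2 = ((a : ℤ) : L) → (k * k) x = x := by
    intro x a ha
    show k (k x) = x
    rcases gal_sqrt k ha with h | h
    · rw [h, h]
    · rw [h, map_neg, h, neg_neg]
  refine ⟨k * k, ?_, fun q hq => hsq _ _ (E.hr q hq), ?_⟩
  · rw [E.mem_G1]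
    refine ⟨hsq _ _ E.h1, hsq _ _ E.θ2, 1, ?_⟩
    rw [map_mul, hχ1, one_pow, mul_one]
  show k (k E.θ) = -E.θ
  have h4 : (k E.θ) ^ 2 = (E.s (-1) * E.θ) ^ 2 := by
    rw [← map_pow, n7, mul_pow, E.h1]; push_cast; ring
  have h1 := E.h1
  push_cast at h1
  rcases sq_eq_sq_iff_eq_or_eq_neg.1 h4 with h | h
  · rw [h, map_mul, hk1, h]
    linear_combination E.θ * h1
  · rw [h, map_neg, map_mul, hk1, h]
    linear_combination E.θ * h1

theorem ng_val {p : ℕ} {q : ℕ} {c : ZMod 2} (h : IsSquare (q : ZMod p) ↔ c = 0) :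
    nrp p q = c := by
  unfold nrp
  have h01 : ∀ x : ZMod 2, x = 0 ∨ x = 1 := by decide
  rcases h01 c with hc | hc
  · rw [if_pos (h.2 hc), hc]
  · rw [if_neg, hc]
    intro h3
    rw [h.1 h3] at hc
    exact zero_ne_one hc

theorem Dat.surj (n : ℕ) {S : Finset ℕ} (hS : S ⊆ R) : Function.Surjective (E.Ψ hb n hS) := by
  classical
  intro x
  obtain ⟨v, d⟩ := x
  -- first the symbols
  obtain ⟨D₁, hD₁, htor⟩ := torsor L
  obtain ⟨p, hpB, hp, hp4, hp7, hp1, hε⟩ := exists_prime_sym hb 1 (by norm_num)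
    (fun q => ∀ h : q ∈ S, v ⟨q, h⟩ = 0) (D₁ + 7 + r + ∑ q ∈ R, q)
  obtain ⟨h2, h7, hpr, hpR, hpD⟩ := good_of_large hpB
  haveI : Fact p.Prime := ⟨hp⟩
  have ht := htor p (hpD hD₁)
  obtain ⟨φ⟩ := nonempty_hom ht
  obtain ⟨g, hg⟩ := exists_frob ht φ
  obtain ⟨f1, -, f2, -, f3⟩ := E.frob_facts hb n h2 h7 hpr hpR hg
  have hgG := f1.1 (cl1_of hp4 hp7 hp1)
  have hgv : ∀ q : S, ng g (E.s ((q : ℕ) : ℤ)) = v q := by
    intro q
    rw [← f2 q (hS q.2)]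
    apply ng_val
    rw [hε q (hS q.2)]
    exact ⟨fun h => h q.2, fun h _ => h⟩
  have e4 : (fun q : S => ng g (E.s ((q : ℕ) : ℤ))) = v := funext hgv
  by_cases hd : E.dg g = d
  · refine ⟨⟨g, hgG⟩, ?_⟩
    show Multiplicative.ofAdd (fun q : S => ng g (E.s ((q : ℕ) : ℤ)), E.dg g) = _
    rw [hd, e4]
    rfl
  · obtain ⟨h, hhG, hh1, hh2⟩ := E.exists_flip hb n
    have hfl : E.Ψ hb n hS ⟨h, hhG⟩ = Multiplicative.ofAdd ((0 : S → ZMod 2), (1 : ZMod 2)) := by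
      show Multiplicative.ofAdd (fun q : S => ng h (E.s ((q : ℕ) : ℤ)), E.dg h) = _
      have e1 : (fun q : S => ng h (E.s ((q : ℕ) : ℤ))) = 0 := by
        funext q
        unfold ng
        rw [if_pos (hh1 q (hS q.2))]
        rfl
      have e2 : E.dg h = 1 := by
        unfold Dat.dg
        have e3 : ∑ q ∈ R, ng h (E.s (q : ℤ)) = 0 := by
          apply Finset.sum_eq_zero
          intro q hq
          unfold ng
          rw [if_pos (hh1 q hq)]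
        rw [e3, zero_add]
        unfold ng
        rw [if_neg]
        rw [hh2]
        intro h3
        apply E.θ0
        have : (2 : L) * E.θ = 0 := by linear_combination -h3
        rcases mul_eq_zero.1 this with h5 | h5
        · norm_num at h5
        · exact h5
      rw [e1, e2]
    refine ⟨⟨g, hgG⟩ * ⟨h, hhG⟩, ?_⟩
    rw [map_mul, hfl]
    show Multiplicative.ofAdd (fun q : S => ng g (E.s ((q : ℕ) : ℤ)), E.dg g) * _ = _
    rw [← ofAdd_add]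
    have e5 : E.dg g + 1 = d := by
      have : ∀ x y : ZMod 2, x ≠ y → x + 1 = y := by decide
      exact this _ _ hd
    have e6 : ((fun q : S => ng g (E.s ((q : ℕ) : ℤ))), E.dg g) + ((0 : S → ZMod 2), (1 : ZMod 2))
        = (v, d) := by
      rw [Prod.mk_add_mk, e4, e5, add_zero]
    rw [e6]
    rfl

theorem Dat.surj' (n : ℕ) {S : Finset ℕ} (hS : S ⊆ R) : Function.Surjective (E.Φ hb n hS) := by
  classical
  intro x
  obtain ⟨v, d⟩ := x
  obtain ⟨D₁, hD₁, htor⟩ := torsor L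
  obtain ⟨p, hpB, hp, hp4, hp7, hp1, hε⟩ := exists_prime_sym hb (if d = 0 then 1 else 3)
    (by split_ifs <;> norm_num)
    (fun q => ∀ h : q ∈ S, v ⟨q, h⟩ = 0) (D₁ + 7 + r + ∑ q ∈ R, q)
  obtain ⟨h2, h7, hpr, hpR, hpD⟩ := good_of_large hpB
  haveI : Fact p.Prime := ⟨hp⟩
  have ht := htor p (hpD hD₁)
  obtain ⟨φ⟩ := nonempty_hom ht
  obtain ⟨g, hg⟩ := exists_frob ht φ
  obtain ⟨-, f1, f2, f3, -⟩ := E.frob_facts hb n h2 h7 hpr hpR hg
  have hgG := f1.1 (cl2_of hp4 hp1)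
  have hgv : ∀ q : S, ng g (E.s ((q : ℕ) : ℤ)) = v q := by
    intro q
    rw [← f2 q (hS q.2)]
    apply ng_val
    rw [hε q (hS q.2)]
    exact ⟨fun h => h q.2, fun h _ => h⟩
  have e4 : (fun q : S => ng g (E.s ((q : ℕ) : ℤ))) = v := funext hgv
  have e5 : ng g (E.θ ^ 2) = d := by
    have h01 : ∀ x : ZMod 2, x = 0 ∨ x = 1 := by decide
    have h7' : (p : ZMod 7) = ((if d = 0 then 1 else 3 : ℕ) : ZMod 7) :=
      (ZMod.natCast_eq_natCast_iff _ _ _).2 hp7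
    unfold ng
    rcases h01 d with hd | hd
    · rw [if_pos, hd]
      rw [← f3, sq7_iff hp4, h7', if_pos hd]
      exact ⟨1, by simp⟩
    · rw [if_neg, hd]
      rw [← f3, sq7_iff hp4, h7', if_neg (by rw [hd]; decide)]
      decide
  refine ⟨⟨g, hgG⟩, ?_⟩
  show Multiplicative.ofAdd (fun q : S => ng g (E.s ((q : ℕ) : ℤ)), ng g (E.θ ^ 2)) = _
  rw [e4, e5]
  rfl

end

end Q283.XF
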