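import Pool.Agent.Q283.TW.Arith

/-!
# Primes in given residue classes
-/

set_option autoImplicit false
set_option linter.style.haveILetI false

namespace Q283.XF

open Finset

/-- **Primes `= 1` modulo `4` in given residue classes modulo given odd primes.** -/
theorem exists_prime_res (R : Finset ℕ) (hR : ∀ r ∈ R, r.Prime ∧ r ≠ 2) (a : ℕ → ℕ)
    (ha : ∀ r ∈ R, Nat.Coprime (a r) r) (B : ℕ) : ∃ p, B < p ∧ p.Prime ∧ p % 4 = 1 ∧
      ∀ r ∈ R, p ≡ a r [MOD r] := by
  classical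
  have h4 : 4 ∉ R := by
    intro h
    have := (hR 4 h).1
    norm_num at this
  set b : ℕ → ℕ := fun r => if r = 4 then 1 else a r with hb
  have hpp : Set.Pairwise (↑(insert 4 R) : Set ℕ) (Function.onFun Nat.Coprime (fun r : ℕ => r)) := by
    intro x hx y hy hxy
    simp only [Finset.coe_insert, Set.mem_insert_iff, Finset.mem_coe] at hx hy
    show Nat.Coprime x y
    have h41 : ∀ r ∈ R, Nat.Coprime 4 r := by
      intro r hr
      obtain ⟨h1, h2⟩ := hR r hr
      rw [Nat.coprime_comm, h1.coprime_iff_not_dvd]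
      intro h
      have h4 : r ∣ 2 ^ 2 := by norm_num; exact h
      exact h2 ((Nat.prime_dvd_prime_iff_eq h1 Nat.prime_two).1 (h1.dvd_of_dvd_pow h4))
    rcases hx with rfl | hx <;> rcases hy with rfl | hy
    · exact absurd rfl hxy
    · exact h41 y hy
    · exact (h41 x hx).symm
    · exact (Nat.coprime_primes (hR x hx).1 (hR y hy).1).2 hxy
  have hne : ∀ i ∈ insert 4 R, (fun r : ℕ => r) i ≠ 0 := by
    intro i hi
    rw [Finset.mem_insert] at hi
    rcases hi with rfl | hi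
    · norm_num
    · exact (hR i hi).1.ne_zero
  obtain ⟨k, hk⟩ := Nat.chineseRemainderOfFinset b (fun r => r) (insert 4 R) hne hpp
  set M := 4 * ∏ r ∈ R, r with hM
  have hM0 : M ≠ 0 := Nat.mul_ne_zero (by norm_num)
    (Finset.prod_ne_zero_iff.2 fun r hr => (hR r hr).1.ne_zero)
  have hk4 : k ≡ 1 [MOD 4] := by
    have := hk 4 (Finset.mem_insert_self _ _)
    simpa [hb] using this
  have hkr : ∀ r ∈ R, k ≡ a r [MOD r] := by
    intro r hr
    have h1 := hk r (Finset.mem_insert_of_mem hr)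
    have h2 : r ≠ 4 := by rintro rfl; exact h4 hr
    simpa [hb, h2] using h1
  have hkM : Nat.Coprime k M := by
    rw [hM]
    apply Nat.Coprime.mul_right
    · have h1 : Nat.gcd k 4 = Nat.gcd 1 4 := hk4.gcd_eq
      show Nat.gcd k 4 = 1
      rw [h1]; norm_num
    · apply Nat.Coprime.prod_right
      intro r hr
      show Nat.gcd k r = 1
      rw [(hkr r hr).gcd_eq]
      exact ha r hr
  obtain ⟨p, hpB, hp, hpk⟩ := Nat.forall_exists_prime_gt_and_modEq B hM0 hkM
  refine ⟨p, hpB, hp, ?_, ?_⟩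
  · have hp4 : p ≡ 1 [MOD 4] := (hpk.of_dvd ⟨∏ r ∈ R, r, hM⟩).trans hk4
    unfold Nat.ModEq at hp4
    omega
  · intro r hr
    exact (hpk.of_dvd (((Finset.dvd_prod_of_mem (fun r => r) hr)).mul_left 4)).trans (hkr r hr)

/-- the conditions of the theorem at the other primes -/
structure Base (R : Finset ℕ) (r : ℕ) : Prop where
  hr : r.Prime
  hr2 : r ≠ 2
  hr7 : r ≠ 7
  hrR : r ∉ R
  hR : ∀ q ∈ R, q.Prime ∧ q ≠ 2 ∧ q ≠ 7

/-- a large prime `= 1` modulo `4 r` with given residue modulo `7` and given symbols -/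
theorem exists_prime_sym {R : Finset ℕ} {r : ℕ} (h : Base R r) (c : ℕ) (hc : Nat.Coprime c 7)
    (ε : ℕ → Prop) (B : ℕ) : ∃ p, B < p ∧ p.Prime ∧ p % 4 = 1 ∧ p ≡ c [MOD 7] ∧ p ≡ 1 [MOD r] ∧
      ∀ q ∈ R, (IsSquare (q : ZMod p) ↔ ε q) := by
  classical
  have hex : ∀ q : ℕ, ∃ a : ℕ, (q ∈ R → (IsSquare (a : ZMod q) ↔ ε q) ∧ Nat.Coprime a q) := by
    intro q
    by_cases hq : q ∈ R
    · by_cases he : ε q
      · exact ⟨1, fun _ => ⟨⟨fun _ => he, fun _ => by simp⟩, Nat.coprime_one_left q⟩⟩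
      · obtain ⟨a, ha⟩ := Q283.TW.exists_nonres q (h.hR q hq).1 (h.hR q hq).2.1
        refine ⟨a, fun _ => ⟨⟨fun h => absurd h ha, fun h => absurd h he⟩, ?_⟩⟩
        rw [Nat.coprime_comm, (h.hR q hq).1.coprime_iff_not_dvd]
        intro h
        apply ha
        rw [(ZMod.natCast_eq_zero_iff a q).2 h]
        exact ⟨0, by simp⟩
    · exact ⟨0, fun h => absurd h hq⟩
  choose a ha using hex
  have h7R : 7 ∉ R := fun h7 => (h.hR 7 h7).2.2 rfl
  obtain ⟨p, hpB, hp, hp4, hpr⟩ := exists_prime_res (insert 7 (insert r R)) (by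
    intro q hq
    rw [Finset.mem_insert, Finset.mem_insert] at hq
    rcases hq with rfl | rfl | hq
    · exact ⟨by norm_num, by norm_num⟩
    · exact ⟨h.hr, h.hr2⟩
    · exact ⟨(h.hR q hq).1, (h.hR q hq).2.1⟩)
    (fun q => if q = 7 then c else if q = r then 1 else a q) (by
    intro q hq
    rw [Finset.mem_insert, Finset.mem_insert] at hq
    rcases hq with rfl | rfl | hq
    · rw [if_pos rfl]; exact hc
    · rw [if_neg h.hr7, if_pos rfl]; exact Nat.coprime_one_left _
    · rw [if_neg (h.hR q hq).2.2, if_neg (by rintro rfl; exact h.hrR hq)]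
      exact (ha q hq).2) B
  refine ⟨p, hpB, hp, hp4, ?_, ?_, ?_⟩
  · have := hpr 7 (Finset.mem_insert_self _ _)
    rwa [if_pos rfl] at this
  · have := hpr r (Finset.mem_insert_of_mem (Finset.mem_insert_self _ _))
    rwa [if_neg h.hr7, if_pos rfl] at this
  · intro q hq
    haveI : Fact p.Prime := ⟨hp⟩
    haveI : Fact q.Prime := ⟨(h.hR q hq).1⟩
    have h1 := hpr q (Finset.mem_insert_of_mem (Finset.mem_insert_of_mem hq))
    rw [if_neg (h.hR q hq).2.2, if_neg (by rintro rfl; exact h.hrR hq)] at h1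
    rw [ZMod.exists_sq_eq_prime_iff_of_mod_four_eq_one hp4 (h.hR q hq).2.1]
    have h2 : (p : ZMod q) = (a q : ZMod q) := (ZMod.natCast_eq_natCast_iff _ _ _).2 h1
    rw [h2]
    exact (ha q hq).1

end Q283.XF
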