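import Pool.Agent.Q283.TW.Main
import Pool.Agent.Q283.XF.Arith

/-!
# Frobenius elements, square roots, a fourth root of `-7` and a root of unity
-/

set_option autoImplicit false
set_option linter.style.haveILetI false
set_option linter.unusedSectionVars false

namespace Q283.XF

open NumberField Filter Topology Finset Pool.Agent.W401.Cheb Polynomial
open Q283.TW (gen_split_rat coe_smul' fixed_iff cast_inj two_ne gal_sqrt frob_sqrt ng ng_mul nrp
  ne_zero_of)

/-! ### The field -/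

/-- a Galois extension with given square roots, a fourth root of `-7` and a root of unity -/
theorem exists_field (T : Finset ℤ) (r : ℕ) (hr : 0 < r) : ∃ (L : Type) (_ : Field L)
    (_ : NumberField L) (_ : IsGalois ℚ L) (s : ℤ → L) (θ z : L), θ ^ 4 = -7 ∧
      IsPrimitiveRoot z r ∧ ∀ a ∈ T, (s a) ^ 2 = (a : L) := by
  classical
  haveI : NeZero r := ⟨hr.ne'⟩
  set h : ℚ[X] := X ^ 4 + 7 with hh
  set k : ℚ[X] := cyclotomic r ℚ with hk
  set q : ℤ → ℚ[X] := fun a => X ^ 2 - C (a : ℚ) with hq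
  set f : ℚ[X] := h * k * ∏ a ∈ T, q a with hf
  have hhd : h.natDegree = 4 := by rw [hh]; compute_degree!
  have hkd : k.natDegree ≠ 0 := by
    rw [hk, natDegree_cyclotomic]; exact (Nat.totient_pos.2 hr).ne'
  have hqd : ∀ a, (q a).natDegree = 2 := by intro a; rw [hq]; exact natDegree_X_pow_sub_C
  have hh0 : h ≠ 0 := by intro h0; rw [h0] at hhd; simp at hhd
  have hk0 : k ≠ 0 := cyclotomic_ne_zero r ℚ
  have hq0 : ∀ a, q a ≠ 0 := by intro a h0; have := hqd a; rw [h0] at this; simp at this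
  have hf0 : f ≠ 0 := mul_ne_zero (mul_ne_zero hh0 hk0)
    (Finset.prod_ne_zero_iff.2 fun a _ => hq0 a)
  obtain ⟨L, hL, hN, hG, hsp⟩ := gen_split_rat f
  have hfm : f.map (algebraMap ℚ L) ≠ 0 := by
    rwa [Ne, Polynomial.map_eq_zero]
  have key : ∀ g : ℚ[X], g ∣ f → g.natDegree ≠ 0 →
      ∃ x : L, (g.map (algebraMap ℚ L)).eval x = 0 := by
    intro g hg hd
    have h1 := hsp.of_dvd hfm (Polynomial.map_dvd _ hg)
    refine h1.exists_eval_eq_zero ?_
    rw [Polynomial.degree_map]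
    intro h2
    exact hd (natDegree_eq_of_degree_eq_some h2)
  obtain ⟨θ, hθ⟩ := key h ((Dvd.intro k rfl).trans (Dvd.intro _ rfl)) (by rw [hhd]; norm_num)
  obtain ⟨z, hz⟩ := key k ((Dvd.intro_left h rfl).trans (Dvd.intro _ rfl)) hkd
  have hs : ∀ a : ℤ, ∃ x : L, a ∈ T → x ^ 2 = (a : L) := by
    intro a
    by_cases ha : a ∈ T
    · obtain ⟨x, hx⟩ := key (q a) ((Finset.dvd_prod_of_mem q ha).mul_left _)
        (by rw [hqd]; norm_num)
      refine ⟨x, fun _ => ?_⟩
      rw [hq] at hx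
      simp at hx
      linear_combination hx
    · exact ⟨0, fun h => absurd h ha⟩
  choose s hs' using hs
  refine ⟨L, hL, hN, hG, s, θ, z, ?_, ?_, fun a ha => hs' a ha⟩
  · rw [hh] at hθ
    simp at hθ
    linear_combination hθ
  · rw [hk, map_cyclotomic] at hz
    haveI : NeZero ((r : ℕ) : L) := ⟨Nat.cast_ne_zero.2 hr.ne'⟩
    exact isRoot_cyclotomic_iff.1 hz

/-! ### Frobenius elements -/

/-- equal powers of a primitive root -/
theorem prim_pow_eq {R : Type*} [CommRing R] [IsDomain R] {z : R} {n : ℕ} (hn : 0 < n)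
    (h : IsPrimitiveRoot z n) {a b : ℕ} : z ^ a = z ^ b ↔ (a : ZMod n) = b := by
  rw [ZMod.natCast_eq_natCast_iff]
  have h1 : ∀ a : ℕ, z ^ a = z ^ (a % n) := by
    intro a
    conv_lhs => rw [← Nat.div_add_mod a n, pow_add, pow_mul, h.pow_eq_one, one_pow, one_mul]
  constructor
  · intro hab
    rw [h1 a, h1 b] at hab
    exact h.pow_inj (Nat.mod_lt _ hn) (Nat.mod_lt _ hn) hab
  · intro hab
    rw [h1 a, h1 b]
    unfold Nat.ModEq at hab
    rw [hab]

section
variable {p : ℕ} [hp : Fact p.Prime] {L : Type} [Field L] [NumberField L] [IsGalois ℚ L]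

theorem prim_im {z : 𝓞 L} {r : ℕ} (hr : r.Prime) (hz : IsPrimitiveRoot z r) (hpr : p ≠ r)
    (φ : 𝓞 L →+* AlgebraicClosure (ZMod p)) : IsPrimitiveRoot (φ z) r := by
  have h1 := hz.isRoot_cyclotomic hr.pos
  have h2 := h1.map (f := φ)
  rw [Polynomial.map_cyclotomic] at h2
  haveI : NeZero ((r : ℕ) : AlgebraicClosure (ZMod p)) := ⟨by
    intro h
    rw [CharP.cast_eq_zero_iff (AlgebraicClosure (ZMod p)) p] at h
    exact hpr ((Nat.prime_dvd_prime_iff_eq hp.out hr).1 h)⟩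
  exact Polynomial.isRoot_cyclotomic_iff.1 h2

/-- Frobenius and a root of unity -/
theorem frob_root {z : 𝓞 L} {r : ℕ} (hr : r.Prime) (hz : IsPrimitiveRoot z r) (hpr : p ≠ r)
    {φ : 𝓞 L →+* AlgebraicClosure (ZMod p)} {g : Gal(L/ℚ)} (hφ : HasFrob p φ g) {a : ℕ}
    (ha : g • z = z ^ a) : (a : ZMod r) = p := by
  have h1 := prim_im hr hz hpr φ
  rw [← prim_pow_eq hr.pos h1, ← map_pow, ← ha]
  exact hφ z

theorem exists_exp {z : 𝓞 L} {r : ℕ} (hr : r.Prime) (hz : IsPrimitiveRoot z r) (g : Gal(L/ℚ)) :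
    ∃ a : ℕ, g • z = z ^ a := by
  have h1 : (g • z) ^ r = 1 := by rw [← smul_pow', hz.pow_eq_one, smul_one]
  haveI : NeZero r := ⟨hr.ne_zero⟩
  obtain ⟨a, -, ha⟩ := hz.eq_pow_of_pow_eq_one h1
  exact ⟨a, ha.symm⟩

theorem theta_int {θ : L} (hθ : θ ^ 4 = -7) : IsIntegral ℤ θ := by
  apply IsIntegral.of_pow (n := 4) (by norm_num)
  rw [hθ]
  have h : IsIntegral ℤ (algebraMap ℤ L (-7)) := isIntegral_algebraMap
  simpa using h

theorem theta_ne {θ : L} (hθ : θ ^ 4 = -7) : θ ≠ 0 := by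
  rintro rfl
  norm_num at hθ

theorem gal_theta (g : Gal(L/ℚ)) {θ : L} (h : g (θ ^ 2) = θ ^ 2) : g θ = θ ∨ g θ = -θ := by
  rw [map_pow] at h
  exact sq_eq_sq_iff_eq_or_eq_neg.1 h

theorem frob_theta {φ : 𝓞 L →+* AlgebraicClosure (ZMod p)} {g : Gal(L/ℚ)} (hφ : HasFrob p φ g)
    {θ : L} (hθ : θ ^ 4 = -7) (hg : g (θ ^ 2) = θ ^ 2) (h2 : p ≠ 2) (h7 : p ≠ 7)
    (h1 : IsSquare (-1 : ZMod p)) : (∃ y : ZMod p, y ^ 4 = -7) ↔ g θ = θ := by
  obtain ⟨Θ, hΘ⟩ : ∃ S : 𝓞 L, algebraMap (𝓞 L) L S = θ := ⟨⟨θ, theta_int hθ⟩, rfl⟩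
  have hinj : Function.Injective (algebraMap (𝓞 L) L) := RingOfIntegers.coe_injective
  have h4 : Θ ^ 4 = -7 := by
    apply hinj
    rw [map_pow, map_neg, map_ofNat, hΘ, hθ]
  set ι := algebraMap (ZMod p) (AlgebraicClosure (ZMod p)) with hι
  set t := φ Θ with ht
  have ht4 : t ^ 4 = -7 := by rw [ht, ← map_pow, h4, map_neg, map_ofNat]
  have h20 := two_ne (p := p) h2
  have h70 : (7 : AlgebraicClosure (ZMod p)) ≠ 0 := by
    intro h
    have e : ι 7 = ι 0 := by rw [map_ofNat, map_zero]; exact h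
    have h3 : ((7 : ℕ) : ZMod p) = 0 := by exact_mod_cast cast_inj e
    rw [ZMod.natCast_eq_zero_iff] at h3
    exact h7 ((Nat.prime_dvd_prime_iff_eq hp.out (by norm_num)).1 h3)
  have ht0 : t ≠ 0 := by
    intro h
    rw [h] at ht4
    apply h70
    linear_combination ht4
  constructor
  · rintro ⟨y, hy⟩
    have hfix : t ^ p = t := by
      rw [fixed_iff]
      obtain ⟨i, hi⟩ := h1
      have hi2 : (ι i) ^ 2 = -1 := by rw [sq, ← map_mul, ← hi, map_neg, map_one]
      have hy4 : (ι y) ^ 4 = -7 := by rw [← map_pow, hy, map_neg, map_ofNat]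
      have h5 : (t - ι y) * ((t + ι y) * ((t - ι i * ι y) * (t + ι i * ι y))) = 0 := by
        linear_combination ht4 - hy4 + (ι y ^ 4 - t ^ 2 * ι y ^ 2) * hi2
      rcases mul_eq_zero.1 h5 with h6 | h6
      · exact ⟨y, (sub_eq_zero.1 h6).symm⟩
      rcases mul_eq_zero.1 h6 with h7 | h7
      · exact ⟨-y, by rw [map_neg]; linear_combination -h7⟩
      rcases mul_eq_zero.1 h7 with h8 | h8
      · exact ⟨i * y, by rw [map_mul]; linear_combination -h8⟩
      · exact ⟨-(i * y), by rw [map_neg, map_mul]; linear_combination -h8⟩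
    rcases gal_theta g hg with h3 | h3
    · exact h3
    · exfalso
      have h5 : g • Θ = -Θ := by
        apply hinj
        rw [coe_smul', hΘ, h3, map_neg, hΘ]
      have h6 := hφ Θ
      rw [h5, map_neg, ← ht, hfix] at h6
      have h7 : 2 * t = 0 := by linear_combination -h6
      rcases mul_eq_zero.1 h7 with h8 | h8
      · exact h20 h8
      · exact ht0 h8
  · intro h3
    have h5 : g • Θ = Θ := by
      apply hinj
      rw [coe_smul', hΘ, h3]
    have h6 := hφ Θ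
    rw [h5] at h6
    obtain ⟨z, hz⟩ := (fixed_iff _).1 h6.symm
    refine ⟨z, ?_⟩
    apply Q283.TW.cast_inj
    rw [map_pow, hz, ← ht, ht4, map_neg, map_ofNat]

end

end Q283.XF
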